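import Pool.Agent.Lib.MP_1a0ba0_co.Rigid

set_option autoImplicit false

namespace Pool.Agent.Lib.MP_1a0ba0_co

open Finset

/-- integer data: half-spaces, inner points, contact points, multipliers -/
structure Cert (n q : ℕ) where
  N : Fin n → Fin n → Fin 3 → ℤ
  c : Fin n → Fin n → ℤ
  z : Fin n → Fin 3 → ℤ
  nb : Fin n → Fin q → Fin n
  p : Fin n → Fin q → Fin 3 → ℤ
  lam : Fin n → Fin 6 → Bool → Fin q → ℤ
  D : Fin n → Fin 6 → Bool → ℤ

def dotZ (a b : Fin 3 → ℤ) : ℤ := a 0 * b 0 + a 1 * b 1 + a 2 * b 2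

def wr (a p : Fin 3 → ℤ) : Fin 6 → ℤ :=
  ![a 0, a 1, a 2, p 1 * a 2 - p 2 * a 1, p 2 * a 0 - p 0 * a 2, p 0 * a 1 - p 1 * a 0]

variable {n q : ℕ}

def Cert.V1 (X : Cert n q) : Prop := ∀ i j, i ≠ j →
  X.N j i 0 = - X.N i j 0 ∧ X.N j i 1 = - X.N i j 1 ∧ X.N j i 2 = - X.N i j 2 ∧
    X.c j i = - X.c i j ∧ 0 < dotZ (X.N i j) (X.N i j)

def Cert.V2 (X : Cert n q) : Prop := ∀ i j, dotZ (X.N i j) (X.z i) < X.c i j

def Cert.V3 (X : Cert n q) : Prop := ∀ i a, X.nb i a ≠ i ∧
  dotZ (X.N i (X.nb i a)) (X.p i a) = X.c i (X.nb i a) ∧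
  (∀ j, dotZ (X.N i j) (X.p i a) ≤ X.c i j) ∧
  (∀ k, k ≠ i → dotZ (X.N (X.nb i a) k) (X.p i a) < X.c (X.nb i a) k)

def Cert.V4 (X : Cert n q) : Prop := ∀ i k s, 0 < X.D i k s ∧ (∀ a, 0 ≤ X.lam i k s a) ∧
  ∀ m, ∑ a, X.lam i k s a * wr (X.N i (X.nb i a)) (X.p i a) m =
    if m = k then (if s then X.D i k s else - X.D i k s) else 0

noncomputable def lin (a : Fin 3 → ℤ) (x : E) : ℝ := ∑ k, (a k : ℝ) * x k

lemma lin_cont (a : Fin 3 → ℤ) : Continuous (lin a) := by
  unfold lin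
  refine continuous_finsetSum _ fun k _ => continuous_const.mul ?_
  exact (EuclideanSpace.proj k : E →L[ℝ] ℝ).continuous

noncomputable def pt (a : Fin 3 → ℤ) : E := WithLp.toLp 2 (fun k => (a k : ℝ))

@[simp] lemma pt_apply (a : Fin 3 → ℤ) (k : Fin 3) : pt a k = (a k : ℝ) := rfl

lemma lin_pt (a b : Fin 3 → ℤ) : lin a (pt b) = (dotZ a b : ℝ) := by
  simp [lin, dotZ, Fin.sum_univ_three]

/-- the bodies -/
def Cert.K (X : Cert n q) (i : Fin n) : Set E := {x | ∀ j, lin (X.N i j) x ≤ X.c i j}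

def Cert.Ko (X : Cert n q) (i : Fin n) : Set E := {x | ∀ j, lin (X.N i j) x < X.c i j}

lemma Cert.Ko_open (X : Cert n q) (i : Fin n) : IsOpen (X.Ko i) := by
  have : X.Ko i = ⋂ j, {x | lin (X.N i j) x < X.c i j} := by
    ext x; simp [Cert.Ko]
  rw [this]
  exact isOpen_iInter_of_finite fun j => isOpen_lt (lin_cont _) continuous_const

lemma Cert.Ko_sub (X : Cert n q) (i : Fin n) : X.Ko i ⊆ interior (X.K i) :=
  interior_maximal (fun _ hx j => (hx j).le) (X.Ko_open i)

lemma Cert.K_closed (X : Cert n q) (i : Fin n) : IsClosed (X.K i) := by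
  have : X.K i = ⋂ j, {x | lin (X.N i j) x ≤ X.c i j} := by
    ext x; simp [Cert.K]
  rw [this]
  exact isClosed_iInter fun j => isClosed_le (lin_cont _) continuous_const

lemma lin_add_smul (a : Fin 3 → ℤ) (x y : E) (s t : ℝ) :
    lin a (s • x + t • y) = s * lin a x + t * lin a y := by
  simp [lin, Fin.sum_univ_three]; ring

lemma Cert.K_convex (X : Cert n q) (i : Fin n) : Convex ℝ (X.K i) := by
  intro x hx y hy s t hs ht hst j
  rw [lin_add_smul]
  have h1 := mul_le_mul_of_nonneg_left (hx j) hs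
  have h2 := mul_le_mul_of_nonneg_left (hy j) ht
  have h3 : s * (X.c i j : ℝ) + t * X.c i j = X.c i j := by rw [← add_mul, hst, one_mul]
  linarith

lemma Cert.K_int (X : Cert n q) (h2 : X.V2) (i : Fin n) : (interior (X.K i)).Nonempty := by
  refine ⟨pt (X.z i), X.Ko_sub i fun j => ?_⟩
  rw [lin_pt]
  exact_mod_cast h2 i j

lemma Cert.int_lt (X : Cert n q) (i j : Fin n) (h : 0 < dotZ (X.N i j) (X.N i j)) (x : E)
    (hx : x ∈ interior (X.K i)) : lin (X.N i j) x < X.c i j := by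
  have hcont : Continuous (fun t : ℝ => (1 : ℝ) • x + t • pt (X.N i j)) := by fun_prop
  have h0 : ∀ᶠ t in nhds (0 : ℝ), (1 : ℝ) • x + t • pt (X.N i j) ∈ interior (X.K i) := by
    apply hcont.continuousAt.eventually_mem
    simpa using isOpen_interior.mem_nhds hx
  obtain ⟨t, ht, ht0⟩ := ((h0.filter_mono nhdsWithin_le_nhds).and
    (self_mem_nhdsWithin (a := (0 : ℝ)) (s := Set.Ioi 0))).exists
  have h1 := interior_subset ht j
  rw [lin_add_smul, lin_pt] at h1
  have h2 : (0 : ℝ) < (dotZ (X.N i j) (X.N i j) : ℝ) := by exact_mod_cast h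
  have h3 : (0 : ℝ) < t := ht0
  have := mul_pos h3 h2
  linarith

lemma Cert.lin_neg (X : Cert n q) (h1 : X.V1) (i j : Fin n) (hij : i ≠ j) (x : E) :
    lin (X.N j i) x = - lin (X.N i j) x := by
  obtain ⟨a, b, c, -, -⟩ := h1 i j hij
  simp only [lin, Fin.sum_univ_three, a, b, c]
  push_cast; ring

lemma Cert.disj (X : Cert n q) (h1 : X.V1) (i j : Fin n) (hij : i ≠ j) :
    Disjoint (interior (X.K i)) (interior (X.K j)) := by
  rw [Set.disjoint_left]
  intro x hx hy
  have a := X.int_lt i j (h1 i j hij).2.2.2.2 x hx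
  have b := X.int_lt j i (h1 j i hij.symm).2.2.2.2 x hy
  rw [X.lin_neg h1 i j hij, (h1 i j hij).2.2.2.1] at b
  push_cast at b
  linarith

lemma Cert.rig (X : Cert n q) (h4 : X.V4) (i : Fin n) :
    ∃ C : ℝ, Rig (fun a k => (X.N i (X.nb i a) k : ℝ)) (fun a k => pt (X.p i a) k) C := by
  let cc : Fin 6 → Bool → ℝ := fun k s => (∑ a, (X.lam i k s a : ℝ)) / X.D i k s
  have hcc : ∀ k s, 0 ≤ cc k s := by
    intro k s
    obtain ⟨a, b, -⟩ := h4 i k s
    apply div_nonneg
    · exact Finset.sum_nonneg fun a _ => by exact_mod_cast b a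
    · exact_mod_cast a.le
  refine ⟨∑ k, ∑ s, cc k s, ?_⟩
  intro b w r hr hq
  let v : Fin 6 → ℝ := ![b 0, b 1, b 2, w 0, w 1, w 2]
  have hq' : ∀ a, ∑ m, (wr (X.N i (X.nb i a)) (X.p i a) m : ℝ) * v m ≤ r := by
    intro a
    have := hq a
    simp only [pt_apply] at this
    simp [Fin.sum_univ_six, wr, v]
    linarith
  have main : ∀ k, |v k| ≤ (∑ k, ∑ s, cc k s) * r := by
    intro k
    have one : ∀ s : Bool, (if s then v k else - v k) ≤ cc k s * r := by
      intro s
      obtain ⟨hD, hl, hs⟩ := h4 i k s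
      have hD' : (0 : ℝ) < X.D i k s := by exact_mod_cast hD
      have e1 : ∑ a, (X.lam i k s a : ℝ) * ∑ m, (wr (X.N i (X.nb i a)) (X.p i a) m : ℝ) * v m
          ≤ (∑ a, (X.lam i k s a : ℝ)) * r := by
        rw [Finset.sum_mul]
        refine Finset.sum_le_sum fun a _ => ?_
        exact mul_le_mul_of_nonneg_left (hq' a) (by exact_mod_cast hl a)
      have e2 : ∑ a, (X.lam i k s a : ℝ) * ∑ m, (wr (X.N i (X.nb i a)) (X.p i a) m : ℝ) * v m
          = X.D i k s * (if s then v k else - v k) := by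
        simp only [Finset.mul_sum]
        rw [Finset.sum_comm]
        have : ∀ m, ∑ a, (X.lam i k s a : ℝ) * ((wr (X.N i (X.nb i a)) (X.p i a) m : ℝ) * v m)
            = ((if m = k then (if s then X.D i k s else - X.D i k s) else 0 : ℤ) : ℝ) * v m := by
          intro m
          rw [← hs m]
          push_cast
          rw [Finset.sum_mul]
          exact Finset.sum_congr rfl fun a _ => by ring
        simp only [this]
        cases s <;> simp
      rw [e2] at e1
      simp only [cc]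
      rw [div_mul_eq_mul_div, le_div_iff₀ hD']
      linarith
    have hle : ∀ s, cc k s ≤ ∑ k, ∑ s, cc k s := by
      intro s
      calc cc k s ≤ ∑ s, cc k s := Finset.single_le_sum (f := fun s => cc k s)
              (fun s _ => hcc k s) (Finset.mem_univ s)
        _ ≤ _ := Finset.single_le_sum (f := fun k => ∑ s, cc k s)
              (fun k _ => Finset.sum_nonneg fun s _ => hcc k s) (Finset.mem_univ k)
    have t := one true
    have f := one false
    simp only [if_true, Bool.false_eq_true, if_false] at t f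
    have t2 := mul_le_mul_of_nonneg_right (hle true) hr
    have f2 := mul_le_mul_of_nonneg_right (hle false) hr
    rw [abs_le]; constructor <;> linarith
  intro k
  have m0 := main 0
  have m1 := main 1
  have m2 := main 2
  have m3 := main 3
  have m4 := main 4
  have m5 := main 5
  fin_cases k
  · exact ⟨m0, m3⟩
  · exact ⟨m1, m4⟩
  · exact ⟨m2, m5⟩

lemma Cert.K_compact (X : Cert n q) (h4 : X.V4) (i : Fin n) : IsCompact (X.K i) := by
  obtain ⟨C, hC⟩ := X.rig h4 i
  refine Metric.isCompact_of_isClosed_isBounded (X.K_closed i) ?_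
  let r : ℝ := ∑ j, |(X.c i j : ℝ)|
  have hr : 0 ≤ r := by positivity
  rw [isBounded_iff_forall_norm_le]
  refine ⟨√(3 * (C * r) ^ 2), fun x hx => ?_⟩
  have h := hC (fun k => x k) 0 r hr (by
    intro a
    have h1 := hx (X.nb i a)
    have h2 : |(X.c i (X.nb i a) : ℝ)| ≤ r :=
      Finset.single_le_sum (f := fun j => |(X.c i j : ℝ)|) (fun _ _ => abs_nonneg _)
        (Finset.mem_univ _)
    have h3 := le_abs_self (X.c i (X.nb i a) : ℝ)
    simp only [lin, Fin.sum_univ_three] at h1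
    simp
    linarith)
  rw [EuclideanSpace.norm_eq]
  apply Real.sqrt_le_sqrt
  have sq (k : Fin 3) : ‖x k‖ ^ 2 ≤ (C * r) ^ 2 :=
    pow_le_pow_left₀ (norm_nonneg _) (h k).1 2
  rw [Fin.sum_univ_three]
  linarith [sq 0, sq 1, sq 2]

theorem Cert.blocked (X : Cert n q) (h1 : X.V1) (h2 : X.V2) (h3 : X.V3) (h4 : X.V4) (i : Fin n)
    (γ : unitInterval → E → E) (hγ : ∀ t, Isometry (γ t))
    (hc : Continuous (fun x : unitInterval × E => γ x.1 x.2)) (h0 : γ 0 = id)
    (hd : ∀ t, ∀ j, j ≠ i → Disjoint (interior (γ t '' X.K i)) (interior (X.K j))) :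
    ∀ t, γ t = id := by
  obtain ⟨C, hC⟩ := X.rig h4 i
  refine immobile (X.K i) (fun a k => (X.N i (X.nb i a) k : ℝ)) (fun a => pt (X.p i a))
    (fun a => interior (X.K (X.nb i a)))
    (fun a => ⋂ k ∈ ({k | k ≠ i} : Set (Fin n)), {x | lin (X.N (X.nb i a) k) x < X.c (X.nb i a) k})
    (fun _ => isOpen_interior) ?_ ?_ ?_ C hC γ hγ hc h0 (fun t a => hd t _ (h3 i a).1)
  · intro a
    rw [Filter.biInter_mem (Set.toFinite _)]
    intro k hk
    refine (isOpen_lt (lin_cont _) continuous_const).mem_nhds ?_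
    show lin _ _ < _
    rw [lin_pt]
    exact_mod_cast (h3 i a).2.2.2 k hk
  · intro a
    rw [(X.K_convex i).closure_interior_eq_closure_of_nonempty_interior (X.K_int h2 i)]
    apply subset_closure
    intro j
    rw [lin_pt]
    exact_mod_cast (h3 i a).2.2.1 j
  · intro a y hy hlt
    apply X.Ko_sub
    intro k
    by_cases hk : k = i
    · subst hk
      have e1 : lin (X.N k (X.nb k a)) (pt (X.p k a)) < lin (X.N k (X.nb k a)) y := hlt
      rw [lin_pt, (h3 k a).2.1] at e1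
      rw [X.lin_neg h1 k _ (h3 k a).1.symm, (h1 k _ (h3 k a).1.symm).2.2.2.1]
      push_cast
      linarith
    · simp only [Set.mem_iInter] at hy
      exact hy k hk

end Pool.Agent.Lib.MP_1a0ba0_co
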