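import Mathlib

set_option autoImplicit false

namespace Pool.Agent.Lib.MP_1a0ba0_co

open Finset

/-- First-order rigidity with an explicit constant. -/
def Rig {Q : Type} (n p : Q → Fin 3 → ℝ) (C : ℝ) : Prop :=
  ∀ (b w : Fin 3 → ℝ) (r : ℝ), 0 ≤ r →
    (∀ q, n q 0 * (b 0 + (w 1 * p q 2 - w 2 * p q 1)) + n q 1 * (b 1 + (w 2 * p q 0 - w 0 * p q 2))
      + n q 2 * (b 2 + (w 0 * p q 1 - w 1 * p q 0)) ≤ r) →
    ∀ k, |b k| ≤ C * r ∧ |w k| ≤ C * r

/-- squared distance of a matrix to the identity -/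
def mu (A : Fin 3 → Fin 3 → ℝ) : ℝ := ∑ k, ∑ l, (A k l - if k = l then 1 else 0) ^ 2

lemma mul3_le (a s p m : ℝ) (hs : |s| ≤ m) : -(a * s * p) ≤ |a| * |p| * m := by
  have h1 : -(a * s * p) ≤ |a * s * p| := neg_le_abs _
  rw [abs_mul, abs_mul] at h1
  have h2 : |a| * |s| * |p| ≤ |a| * m * |p| := by gcongr
  linarith

lemma diag_bound (x y z r : ℝ) (h : x * x + y * y + z * z = 1) (hr : 0 ≤ r) :
    |x - 1| ≤ (x - 1) ^ 2 + y ^ 2 + z ^ 2 + r := by
  have e : (x - 1) ^ 2 + y ^ 2 + z ^ 2 = 2 * (1 - x) := by nlinarith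
  have e2 : 0 ≤ (x - 1) ^ 2 + y ^ 2 + z ^ 2 := by positivity
  rw [abs_le]; constructor <;> linarith

lemma off_bound (s a b c d e f r : ℝ) (h : s = -(a * b + c * d + e * f)) (hr : 0 ≤ r) :
    |s / 2| ≤ a ^ 2 + b ^ 2 + c ^ 2 + d ^ 2 + e ^ 2 + f ^ 2 + r := by
  rw [abs_le]; constructor <;> nlinarith [sq_nonneg (a + b), sq_nonneg (a - b), sq_nonneg (c + d),
    sq_nonneg (c - d), sq_nonneg (e + f), sq_nonneg (e - f)]

lemma sym_bounds (a00 a01 a02 a10 a11 a12 a20 a21 a22 m : ℝ)
    (hm : m = (a00 - 1) ^ 2 + a01 ^ 2 + a02 ^ 2 + (a10 ^ 2 + (a11 - 1) ^ 2 + a12 ^ 2)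
      + (a20 ^ 2 + a21 ^ 2 + (a22 - 1) ^ 2))
    (o00 : a00 * a00 + a10 * a10 + a20 * a20 = 1) (o01 : a00 * a01 + a10 * a11 + a20 * a21 = 0)
    (o02 : a00 * a02 + a10 * a12 + a20 * a22 = 0) (o11 : a01 * a01 + a11 * a11 + a21 * a21 = 1)
    (o12 : a01 * a02 + a11 * a12 + a21 * a22 = 0) (o22 : a02 * a02 + a12 * a12 + a22 * a22 = 1) :
    |a00 - 1| ≤ m ∧ |a11 - 1| ≤ m ∧ |a22 - 1| ≤ m ∧ |(a01 + a10) / 2| ≤ m ∧
      |(a02 + a20) / 2| ≤ m ∧ |(a12 + a21) / 2| ≤ m := by
  refine ⟨?_, ?_, ?_, ?_, ?_, ?_⟩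
  · have := diag_bound a00 a10 a20 (a01 ^ 2 + a02 ^ 2 + (a11 - 1) ^ 2 + a12 ^ 2 + a21 ^ 2 + (a22 - 1) ^ 2)
      o00 (by positivity)
    linarith
  · have := diag_bound a11 a01 a21 (a10 ^ 2 + a02 ^ 2 + (a00 - 1) ^ 2 + a12 ^ 2 + a20 ^ 2 + (a22 - 1) ^ 2)
      (by linarith) (by positivity)
    linarith
  · have := diag_bound a22 a02 a12 (a01 ^ 2 + a10 ^ 2 + (a11 - 1) ^ 2 + a20 ^ 2 + a21 ^ 2 + (a00 - 1) ^ 2)
      (by linarith) (by positivity)
    linarith
  · have := off_bound (a01 + a10) (a00 - 1) a01 a10 (a11 - 1) a20 a21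
      (a02 ^ 2 + a12 ^ 2 + (a22 - 1) ^ 2) (by linarith) (by positivity)
    linarith
  · have := off_bound (a02 + a20) (a00 - 1) a02 a10 a12 a20 (a22 - 1)
      (a01 ^ 2 + a21 ^ 2 + (a11 - 1) ^ 2) (by linarith) (by positivity)
    linarith
  · have := off_bound (a12 + a21) a01 a02 (a11 - 1) a12 a21 (a22 - 1)
      (a10 ^ 2 + a20 ^ 2 + (a00 - 1) ^ 2) (by linarith) (by positivity)
    linarith

lemma alg {Q : Type} [Fintype Q] (n p : Q → Fin 3 → ℝ) (C : ℝ) (hC : Rig n p C) :
    ∃ ε > 0, ∀ (A : Fin 3 → Fin 3 → ℝ) (b : Fin 3 → ℝ),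
      (∀ l m, ∑ k, A k l * A k m = if l = m then 1 else 0) → mu A < ε →
      (∀ q, ∑ k, n q k * (∑ l, A k l * p q l + b k - p q k) ≤ 0) →
      (∀ k l, A k l = if k = l then 1 else 0) ∧ ∀ k, b k = 0 := by
  set B : ℝ := ∑ q, ∑ k, ∑ l, |n q k| * |p q l| with hB
  have hB0 : 0 ≤ B := by positivity
  refine ⟨1 / (9 + 6 * (C * B) ^ 2), by positivity, ?_⟩
  intro A b horth hmu hq
  set m := mu A with hm
  have hm0 : 0 ≤ m := by rw [hm]; unfold mu; positivity
  have hmx : m = (A 0 0 - 1) ^ 2 + A 0 1 ^ 2 + A 0 2 ^ 2 + (A 1 0 ^ 2 + (A 1 1 - 1) ^ 2 + A 1 2 ^ 2)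
      + (A 2 0 ^ 2 + A 2 1 ^ 2 + (A 2 2 - 1) ^ 2) := by
    rw [hm]; unfold mu; simp [Fin.sum_univ_three]
  have o00 := horth 0 0
  have o01 := horth 0 1
  have o02 := horth 0 2
  have o11 := horth 1 1
  have o12 := horth 1 2
  have o22 := horth 2 2
  simp [Fin.sum_univ_three] at o00 o01 o02 o11 o12 o22
  obtain ⟨s00, s11, s22, s01, s02, s12⟩ := sym_bounds _ _ _ _ _ _ _ _ _ m hmx o00 o01 o02 o11 o12 o22
  have key := hC b ![(A 2 1 - A 1 2) / 2, (A 0 2 - A 2 0) / 2, (A 1 0 - A 0 1) / 2] (B * m)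
    (by positivity) (by
      intro q
      have h := hq q
      simp only [Fin.sum_univ_three] at h
      have hBq : ∑ k, ∑ l, |n q k| * |p q l| ≤ B := by
        rw [hB]
        exact Finset.single_le_sum (f := fun q => ∑ k, ∑ l, |n q k| * |p q l|)
          (fun q _ => by positivity) (Finset.mem_univ q)
      simp only [Fin.sum_univ_three] at hBq
      have hBm := mul_le_mul_of_nonneg_right hBq hm0
      have t00 := mul3_le (n q 0) _ (p q 0) m s00
      have t01 := mul3_le (n q 0) _ (p q 1) m s01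
      have t02 := mul3_le (n q 0) _ (p q 2) m s02
      have t10 := mul3_le (n q 1) _ (p q 0) m s01
      have t11 := mul3_le (n q 1) _ (p q 1) m s11
      have t12 := mul3_le (n q 1) _ (p q 2) m s12
      have t20 := mul3_le (n q 2) _ (p q 0) m s02
      have t21 := mul3_le (n q 2) _ (p q 1) m s12
      have t22 := mul3_le (n q 2) _ (p q 2) m s22
      simp only [Matrix.cons_val_zero, Matrix.cons_val_one, Matrix.cons_val_two, Matrix.head_cons,
        Matrix.tail_cons]
      linarith)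
  have w0 := (key 0).2
  have w1 := (key 1).2
  have w2 := (key 2).2
  simp only [Matrix.cons_val_zero, Matrix.cons_val_one, Matrix.cons_val_two, Matrix.head_cons,
        Matrix.tail_cons] at w0 w1 w2
  have sq (x y : ℝ) (h : |x| ≤ y) : x ^ 2 ≤ y ^ 2 := by
    rw [← sq_abs x]; exact pow_le_pow_left₀ (abs_nonneg x) h 2
  have hmm : m ≤ (9 + 6 * (C * B) ^ 2) * m ^ 2 := by
    have a0 := sq _ _ w0
    have a1 := sq _ _ w1
    have a2 := sq _ _ w2
    have b0 := sq _ _ s00
    have b1 := sq _ _ s11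
    have b2 := sq _ _ s22
    have b3 := sq _ _ s01
    have b4 := sq _ _ s02
    have b5 := sq _ _ s12
    have e : m = (A 0 0 - 1) ^ 2 + (A 1 1 - 1) ^ 2 + (A 2 2 - 1) ^ 2
        + 2 * ((A 0 1 + A 1 0) / 2) ^ 2 + 2 * ((A 0 2 + A 2 0) / 2) ^ 2 + 2 * ((A 1 2 + A 2 1) / 2) ^ 2
        + 2 * ((A 2 1 - A 1 2) / 2) ^ 2 + 2 * ((A 0 2 - A 2 0) / 2) ^ 2
        + 2 * ((A 1 0 - A 0 1) / 2) ^ 2 := by rw [hmx]; ring
    have e2 : (C * (B * m)) ^ 2 = (C * B) ^ 2 * m ^ 2 := by ring
    rw [e2] at a0 a1 a2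
    linarith
  have hm00 : m = 0 := by
    by_contra hne
    have hpos : 0 < m := lt_of_le_of_ne hm0 (Ne.symm hne)
    have hd : 0 < 9 + 6 * (C * B) ^ 2 := by positivity
    rw [lt_div_iff₀ hd] at hmu
    nlinarith
  constructor
  · intro k l
    have h1 : (A k l - if k = l then 1 else 0) ^ 2 ≤ m := by
      rw [hm]; unfold mu
      calc (A k l - if k = l then 1 else 0) ^ 2
          ≤ ∑ l, (A k l - if k = l then 1 else 0) ^ 2 :=
            Finset.single_le_sum (f := fun l => (A k l - if k = l then 1 else 0) ^ 2)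
              (fun _ _ => by positivity) (Finset.mem_univ l)
        _ ≤ _ := Finset.single_le_sum (f := fun k => ∑ l, (A k l - if k = l then 1 else 0) ^ 2)
              (fun _ _ => by positivity) (Finset.mem_univ k)
    rw [hm00] at h1
    have h2 : (A k l - if k = l then 1 else 0) = 0 := by
      have := sq_nonneg (A k l - if k = l then 1 else 0)
      exact pow_eq_zero_iff (two_ne_zero) |>.mp (le_antisymm h1 this)
    linarith
  · intro k
    have h := (key k).1
    rw [hm00] at h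
    simpa using h

abbrev E := EuclideanSpace ℝ (Fin 3)

/-- matrix of an isometry -/
noncomputable def mat (g : E → E) (k l : Fin 3) : ℝ := g (EuclideanSpace.single l 1) k - g 0 k

lemma iso_coords (g : E → E) (hg : Isometry g) :
    (∀ x k, g x k = ∑ l, mat g k l * x l + g 0 k) ∧
    (∀ l m, ∑ k, mat g k l * mat g k m = if l = m then 1 else 0) := by
  let φ := hg.affineIsometryOfStrictConvexSpace
  let L := φ.linearIsometry
  have hL : ∀ x, g x = L x + g 0 := by
    intro x
    have := φ.map_vadd 0 x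
    simpa [φ, L] using this
  have hmat : ∀ k l, mat g k l = L (EuclideanSpace.single l 1) k := by
    intro k l
    unfold mat
    rw [hL (EuclideanSpace.single l 1)]
    simp
  constructor
  · intro x k
    have hx : x = ∑ l, x l • EuclideanSpace.single l (1 : ℝ) := by
      ext j
      simp [Pi.single_apply]
    rw [hL x]
    conv_lhs => rw [hx]
    simp [hmat, map_sum, mul_comm]
  · intro l m
    have h := L.inner_map_map (EuclideanSpace.single l 1) (EuclideanSpace.single m 1)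
    rw [EuclideanSpace.inner_single_left] at h
    simp only [hmat]
    rw [PiLp.inner_apply] at h
    simp only [RCLike.inner_apply, conj_trivial] at h
    simp only [PiLp.single_apply, one_mul] at h
    rw [← h]
    exact Finset.sum_congr rfl (fun k _ => mul_comm _ _)

lemma iso_interior (g : E → E) (hg : Isometry g) (K : Set E) :
    g '' closure (interior K) = closure (interior (g '' K)) := by
  let φ := hg.affineIsometryOfStrictConvexSpace
  let ψ := φ.toAffineIsometryEquiv rfl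
  have hψ : g = ψ.toHomeomorph := by
    ext x k
    simp [ψ, φ]
  rw [hψ, Homeomorph.image_closure, Homeomorph.image_interior]

/-- A body whose contact points are first-order rigid cannot move. -/
theorem immobile {Q : Type} [Fintype Q] (K : Set E) (n : Q → Fin 3 → ℝ) (p : Q → E)
    (O U : Q → Set E) (hO : ∀ q, IsOpen (O q)) (hU : ∀ q, U q ∈ nhds (p q))
    (hp : ∀ q, p q ∈ closure (interior K))
    (hUO : ∀ q, ∀ y ∈ U q, ∑ k, n q k * p q k < ∑ k, n q k * y k → y ∈ O q)
    (C : ℝ) (hC : Rig n (fun q k => p q k) C)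
    (γ : unitInterval → E → E) (hγ : ∀ t, Isometry (γ t))
    (hc : Continuous (fun x : unitInterval × E => γ x.1 x.2)) (h0 : γ 0 = id)
    (hd : ∀ t q, Disjoint (interior (γ t '' K)) (O q)) : ∀ t, γ t = id := by
  obtain ⟨ε, hε, halg⟩ := alg n (fun q k => p q k) C hC
  have hcx : ∀ x : E, Continuous (fun t => γ t x) := fun x =>
    hc.comp (continuous_id.prodMk continuous_const)
  have hck : ∀ (x : E) (k : Fin 3), Continuous (fun t => γ t x k) := fun x k =>
    (EuclideanSpace.proj k : E →L[ℝ] ℝ).continuous.comp (hcx x)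
  let S : Set unitInterval := {t | γ t = id}
  have hclosed : IsClosed S := by
    have : S = ⋂ x : E, {t | γ t x = x} := by
      ext t
      simp only [S, Set.mem_ofPred_eq, Set.mem_iInter]
      exact ⟨fun h x => by rw [h]; rfl, fun h => funext h⟩
    rw [this]
    exact isClosed_iInter fun x => isClosed_eq (hcx x) continuous_const
  have hopen : IsOpen S := by
    rw [isOpen_iff_mem_nhds]
    intro t0 ht0
    have ht0' : γ t0 = id := ht0
    have e1 : ∀ᶠ t in nhds t0, ∀ q, γ t (p q) ∈ U q := by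
      rw [Filter.eventually_all]
      intro q
      have h1 : Filter.Tendsto (fun t => γ t (p q)) (nhds t0) (nhds (p q)) := by
        have := (hcx (p q)).tendsto t0
        rwa [ht0'] at this
      exact h1 (hU q)
    have e2 : ∀ᶠ t in nhds t0, mu (mat (γ t)) < ε := by
      have hmc : Continuous (fun t => mu (mat (γ t))) := by
        unfold mu mat
        refine continuous_finsetSum _ fun k _ => continuous_finsetSum _ fun l _ => ?_
        exact (((hck _ k).sub (hck _ k)).sub continuous_const).pow 2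
      have h1 : mu (mat (γ t0)) = 0 := by
        rw [ht0']
        unfold mu mat
        refine Finset.sum_eq_zero fun k _ => Finset.sum_eq_zero fun l _ => ?_
        simp [PiLp.single_apply]
      have := hmc.tendsto t0
      rw [h1] at this
      exact this.eventually (gt_mem_nhds hε)
    filter_upwards [e1, e2] with t h1 h2
    obtain ⟨hco, horth⟩ := iso_coords (γ t) (hγ t)
    have hres := halg (mat (γ t)) (fun k => γ t 0 k) horth h2 (by
      intro q
      by_contra hlt
      push Not at hlt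
      have hin : γ t (p q) ∈ O q := by
        apply hUO q _ (h1 q)
        have : ∑ k, n q k * (∑ l, mat (γ t) k l * p q l + γ t 0 k - p q k)
            = ∑ k, n q k * γ t (p q) k - ∑ k, n q k * p q k := by
          rw [← Finset.sum_sub_distrib]
          refine Finset.sum_congr rfl fun k _ => ?_
          rw [hco (p q) k]; ring
        linarith
      have hcl : γ t (p q) ∈ closure (interior (γ t '' K)) := by
        rw [← iso_interior (γ t) (hγ t)]
        exact ⟨p q, hp q, rfl⟩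
      obtain ⟨y, hy1, hy2⟩ := mem_closure_iff.mp hcl _ (hO q) hin
      exact Set.disjoint_left.mp (hd t q) hy2 hy1)
    show γ t = id
    funext x
    ext k
    rw [hco x k, hres.2 k]
    simp [hres.1]
  have huniv : S = Set.univ :=
    (isClopen_iff.mp ⟨hclosed, hopen⟩).resolve_left (Set.nonempty_iff_ne_empty.mp ⟨0, h0⟩)
  intro t
  have : t ∈ S := huniv ▸ Set.mem_univ t
  exact this

end Pool.Agent.Lib.MP_1a0ba0_co
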